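import Pool.Agent.TMX.Stmts2

set_option autoImplicit false

/-!
# Squad TMX (MP_b61ad0_an), row AR: bad peak, `c` right of `p₃`
-/

namespace Pool.Agent.TMX.H50

open Finset Pool.Agent.TMX
open Pool.Agent.Helper51_Max (I IsMax)
open Pool.Agent.Helper37_EM (var)

theorem exists_min (g : ℕ → ℝ) {a b : ℕ} (hab : a ≤ b) :
    ∃ m, a ≤ m ∧ m ≤ b ∧ ∀ i, a ≤ i → i ≤ b → g m ≤ g i := by
  obtain ⟨m, hm, h⟩ := exists_min_image (Icc a b) g ⟨a, mem_Icc.2 ⟨le_rfl, hab⟩⟩
  have hm' := mem_Icc.1 hm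
  exact ⟨m, hm'.1, hm'.2, fun i h1 h2 => h i (mem_Icc.2 ⟨h1, h2⟩)⟩

/-- the final step -/
theorem fin_step {n W V vr N : ℝ} (hn : n = N + 1) (hN : 0 ≤ N) (h1 : W ≤ n * (W - V))
    (h2 : W ≤ vr) : n * V ≤ N * vr := by
  have h3 : N * W ≤ N * vr := mul_le_mul_of_nonneg_left h2 hN
  have h4 : n * (W - V) = n * W - n * V := by ring
  have h5 : n * W = N * W + W := by rw [hn]; ring
  linarith

theorem ar : AR := by
  intro hReach hMean hVar N g M hM i₀ p₁ y z z' p₃ c j h1 h2 h3 h4 h5 h6 hz0 h7 h8 h9 hMz hcy hcz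
  obtain ⟨α, α1, α2, α3⟩ := exists_min g (Nat.zero_le p₁)
  obtain ⟨w, w1, w2, w3⟩ := exists_min g (show p₁ ≤ p₃ by omega)
  obtain ⟨x, x1, x2, x3⟩ := exists_min g (show p₃ ≤ j by omega)
  obtain ⟨-, R2, R3, R4, -⟩ := hReach N g M hM
  obtain ⟨S1, -, S3⟩ := hMean N g M hM
  obtain ⟨-, V2⟩ := hVar N g
  have hN0 : (0 : ℝ) ≤ N := Nat.cast_nonneg N
  have hn0 : (0 : ℝ) ≤ (N : ℝ) + 1 := by linarith
  have hn1 : (1 : ℝ) ≤ (N : ℝ) + 1 := by linarith
  have hgM : ∀ v ≤ N, g v ≤ M v := fun v hv => Pool.Agent.Helper37_EM.g_le hM hv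
  have huy : g w ≤ M y := (w3 y (by omega) (by omega)).trans (hgM y (by omega))
  have huz : g w ≤ M z' := (w3 z' (by omega) (by omega)).trans (hgM z' (by omega))
  have hvy : g x ≤ M y := (x3 c (by omega) (by omega)).trans hcy
  have hvz : g x ≤ M z' := (x3 c (by omega) (by omega)).trans hcz
  have ha0 : g α ≤ M 0 := (α3 0 le_rfl (Nat.zero_le _)).trans (hgM 0 (Nat.zero_le _))
  have hNN : g N ≤ M N := hgM N le_rfl
  have hS := S3 p₁ p₃ j (by omega) (by omega) h9
  have nα := hM.nonneg α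
  have nw := hM.nonneg w
  have nx := hM.nonneg x
  have nN := hM.nonneg N
  have n1 := hM.nonneg p₁
  have n3 := hM.nonneg p₃
  have nj := hM.nonneg j
  rcases Nat.le_total i₀ j with hij | hij
  · -- (i)
    have hW := V2 α p₁ w p₃ i₀ j N α2 w1 w2 h5 hij h9 le_rfl
    rw [hz0] at hW
    refine fin_step rfl hN0 (W := 2 * (g p₁ - g w + g p₃ - 0 + g j) - g α - g N) ?_ hW
    have e1 := S1 y (by omega)
    have e2 : 0 ≤ ((N : ℝ) + 1) * (2 * (g j - M z) + 2 * (M z' - g w) + (M 0 - g α) +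
        (M N - g N)) := mul_nonneg hn0 (by linarith)
    have e3 : ((N : ℝ) + 1) * (2 * (g p₁ - g w + g p₃ - 0 + g j) - g α - g N -
        (2 * (g p₁ - M y + M z - M z' + g p₃) - M 0 - M N)) =
        2 * (((N : ℝ) + 1) * M y) + ((N : ℝ) + 1) * (2 * (g j - M z) + 2 * (M z' - g w) +
          (M 0 - g α) + (M N - g N)) := by ring
    rw [e3]
    linarith
  · -- (ii)
    have hW := V2 α p₁ w p₃ x j i₀ α2 w1 w2 x1 x2 hij h6
    rw [hz0] at hW
    refine fin_step rfl hN0 (W := 2 * (g p₁ - g w + g p₃ - g x + g j) - g α - 0) ?_ hW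
    have e1 := S1 N le_rfl
    have e2 : 0 ≤ ((N : ℝ) + 1) * (2 * (g j - M z)) := mul_nonneg hn0 (by linarith)
    have e3 : ((N : ℝ) + 1) * (2 * (g p₁ - g w + g p₃ - g x + g j) - g α - 0 -
        (2 * (g p₁ - M y + M z - M z' + g p₃) - M 0 - M N)) =
        ((N : ℝ) + 1) * (2 * (g j - M z)) + ((N : ℝ) + 1) * M N +
          (2 * (((N : ℝ) + 1) * (M y + M z' - g w - g x)) + ((N : ℝ) + 1) * (M 0 - g α)) := by
      ring
    rw [e3]
    have main : g p₁ + g p₃ + g j - 2 * g w - 2 * g x - g α ≤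
        2 * (((N : ℝ) + 1) * (M y + M z' - g w - g x)) + ((N : ℝ) + 1) * (M 0 - g α) := by
      by_cases hc : g α ≤ g w ∧ g α ≤ g x
      · obtain ⟨c1, c2⟩ := hc
        have f1 := R4 0 p₁ p₃ j (g α) (Nat.zero_le _) (by omega) (by omega) h9 (by
          intro i hi
          rcases Nat.le_total i p₁ with h | h
          · exact α3 i (Nat.zero_le _) h
          rcases Nat.le_total i p₃ with h' | h'
          · exact c1.trans (w3 i h h')
          · exact c2.trans (x3 i h' hi))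
        have f2 : 0 ≤ ((N : ℝ) + 1) * (M y + M z' - g w - g x) := mul_nonneg hn0 (by linarith)
        linarith
      · -- the minimum of `u`, `v`
        obtain ⟨μ, m1, m2, m3, m4⟩ : ∃ μ : ℝ, μ ≤ g w ∧ μ ≤ g x ∧ μ ≤ g α ∧
            M z' - μ ≤ M y + M z' - g w - g x := by
          rcases le_total (g w) (g x) with h | h
          · refine ⟨g w, le_rfl, h, ?_, by linarith⟩
            by_contra hcon
            push Not at hcon
            exact hc ⟨hcon.le, hcon.le.trans h⟩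
          · refine ⟨g x, h, le_rfl, ?_, by linarith⟩
            by_contra hcon
            push Not at hcon
            exact hc ⟨hcon.le.trans h, hcon.le⟩
        have f1 := R3 z' p₃ j μ (by omega) (by omega) h9 (by
          intro i hi
          rcases Nat.le_total i p₁ with h | h
          · exact m3.trans (α3 i (Nat.zero_le _) h)
          rcases Nat.le_total i p₃ with h' | h'
          · exact m1.trans (w3 i h h')
          · exact m2.trans (x3 i h' hi))
        have f2 := R2 0 p₁ (g α) (Nat.zero_le _) (by omega) fun i hi => α3 i (Nat.zero_le _) hi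
        have f3 := mul_le_mul_of_nonneg_left m4 hn0
        linarith
    linarith

end Pool.Agent.TMX.H50
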