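import Pool.Agent.TMX.Stmts

set_option autoImplicit false

/-!
# Squad TMX (MP_b61ad0_an), row UNI: at most one wide peak
-/

namespace Pool.Agent.TMX.H50

open Finset Pool.Agent.TMX
open Pool.Agent.Helper51_Max (I IsMax card_I card_I_pos)

/-- A wide peak gives a long optimal ball. -/
theorem peak (hTan : Tan) (hGapS : GapS) (hT12 : T12) {N : ℕ} {g M : ℕ → ℝ} {k w l : ℕ}
    (hM : IsMax N g M) (hB : Bi N g k w l) {y z z' : ℕ} (hy : k ≤ y) (hyz : y < z) (hzz : z < z')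
    (hl : z' ≤ l) (h1 : M y < M z) (h2 : M z' < M z) :
    ∃ p r : ℕ, y < p ∧ p < z' ∧ M z ≤ M p ∧ r < p ∧ p + r < N ∧ p ≤ k + 1 + r ∧
      l ≤ p + r + 1 ∧ M p * ((I N p r).card : ℝ) = ∑ i ∈ I N p r, g i := by
  have hlN := hB.lN
  obtain ⟨p, hp, hmax⟩ := exists_max_image (Icc y z') M ⟨z, mem_Icc.2 ⟨hyz.le, hzz.le⟩⟩
  have hzp : M z ≤ M p := hmax z (mem_Icc.2 ⟨hyz.le, hzz.le⟩)
  have hp' := mem_Icc.1 hp
  have hyp : y < p := by
    rcases Nat.eq_or_lt_of_le hp'.1 with h | h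
    · subst h
      linarith
    · exact h
  have hpz : p < z' := by
    rcases Nat.eq_or_lt_of_le hp'.2 with h | h
    · subst h
      linarith
    · exact h
  obtain ⟨r, hr⟩ := hM.attained p (by omega)
  have hg : ∀ i, y ≤ i → i ≤ z' → g i ≤ max (M y) (M z') := by
    intro i hi1 hi2
    rcases Nat.le_total i w with h | h
    · exact ((hB.dn1 y i hy hi1 h).trans
        (Pool.Agent.Helper37_EM.g_le hM (by omega))).trans (le_max_left _ _)
    · exact ((hB.up2 i z' h hi2 hl).trans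
        (Pool.Agent.Helper37_EM.g_le hM (by omega))).trans (le_max_right _ _)
  have hS := hGapS hTan N g M hM y p z' r hyp hpz (by omega) (by linarith) (by linarith) hr hg
  have hT := hT12 hTan hGapS N g M k w l hM hB y p z' r hy hyp hpz hl (by linarith) (by linarith)
    (hmax _ (mem_Icc.2 ⟨by omega, by omega⟩)) (hmax _ (mem_Icc.2 ⟨by omega, by omega⟩)) hr
  exact ⟨p, r, hyp, hpz, hzp, hS.1, hS.2.1, hT.1, hT.2, hr⟩

theorem sum_nonneg_of {N : ℕ} {g M : ℕ → ℝ} {p r : ℕ} {s : ℝ} (h2 : p + r < N)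
    (hr : M p * ((I N p r).card : ℝ) = ∑ i ∈ I N p r, g i) (hs : s ≤ M p) :
    0 ≤ ∑ i ∈ Icc (p - r) (p + r), (g i - s) := by
  have hI : I N p r = Icc (p - r) (p + r) := by
    unfold Pool.Agent.Helper51_Max.I
    rw [min_eq_left (by omega)]
  rw [hI] at hr
  rw [sum_sub_distrib, sum_const, nsmul_eq_mul, ← hr]
  have : (0 : ℝ) ≤ ((Icc (p - r) (p + r)).card : ℝ) := by positivity
  nlinarith

theorem uni : Uni := by
  intro hTan hGapS hT12 hCC N g M k w l hM hB y₀ z₁ y₁ z₂ y₂ h0 h1 h2 h3 h4 h5 m1 m2 m3 m4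
  have hlN := hB.lN
  obtain ⟨p, r, a1, a2, a3, a4, a5, a6, a7, a8⟩ :=
    peak hTan hGapS hT12 hM hB h0 h1 h2 (by omega) m1 m2
  obtain ⟨q, t, b1, b2, b3, b4, b5, b6, b7, b8⟩ :=
    peak hTan hGapS hT12 hM hB (by omega) h3 h4 h5 m3 m4
  obtain ⟨s, hs1, hs2, hs3⟩ : ∃ s : ℝ, s ≤ M p ∧ s ≤ M q ∧ M y₁ < s :=
    ⟨min (M z₁) (M z₂), (min_le_left _ _).trans a3, (min_le_right _ _).trans b3, lt_min m2 m3⟩
  obtain ⟨a, e, c1, c2, c3, c4, c5⟩ := hCC N g s k l (by omega) hlN hB.up1 hB.dn2 (p - r) (p + r)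
    (q - t) (q + t) (2 * y₁) (by omega) (by omega) (by omega) (by omega) (by omega) (by omega)
    (sum_nonneg_of a5 a8 hs1) (sum_nonneg_of b5 b8 hs2) (by omega) (by omega)
  have hI : I N y₁ (y₁ - a) = Icc a e := by
    unfold Pool.Agent.Helper51_Max.I
    congr 1 <;> omega
  have hle := hM.le y₁ (by omega) (y₁ - a)
  have hpos : (0 : ℝ) < ((I N y₁ (y₁ - a)).card : ℝ) := by
    exact_mod_cast card_I_pos (y₁ - a) (by omega : y₁ ≤ N)
  rw [hI] at hle hpos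
  rw [sum_sub_distrib, sum_const, nsmul_eq_mul] at c5
  have h6 := mul_lt_mul_of_pos_right hs3 hpos
  linarith

end Pool.Agent.TMX.H50
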