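import Pool.Agent.TMX.Stmts2

set_option autoImplicit false

/-!
# Squad TMX (MP_b61ad0_an), row XR: the mass of the right tangent ball
-/

namespace Pool.Agent.TMX.H50

open Finset Pool.Agent.TMX
open Pool.Agent.Helper51_Max (I IsMax)

theorem xr : XR := by
  intro hLast N g M hM y z z' r hG hv u p hu0 huM hp hpe hlow hC
  have g1 := hG.yz
  have g2 := hG.zz
  have g3 := hG.rz
  have g4 := hG.rN
  have g5 := hG.hy
  have g6 := hG.hz
  have g7 := hG.hC
  by_cases hall : ∀ i, p < i → i ≤ z + r → u ≤ g i
  · have hnn : ∀ i ∈ Icc (2 * z' - (z + r)) (z + r), 0 ≤ g i - u := by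
      intro i hi
      have hi' := mem_Icc.1 hi
      rcases Nat.lt_or_ge p i with h | h
      · have := hall i h hi'.2
        linarith
      · have := hlow i h
        linarith
    have h1 := single_le_sum hnn (mem_Icc.2 ⟨by omega, hpe⟩ : p ∈ Icc (2 * z' - (z + r)) (z + r))
    linarith
  · push Not at hall
    have hex : ∃ i, p < i ∧ i ≤ z + r ∧ g i < u := hall
    obtain ⟨c, ⟨c1, c2, c3⟩, cmin⟩ : ∃ c, (p < c ∧ c ≤ z + r ∧ g c < u) ∧
        ∀ j < c, ¬ (p < j ∧ j ≤ z + r ∧ g j < u) :=
      ⟨Nat.find hex, Nat.find_spec hex, fun j hj => Nat.find_min hex hj⟩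
    have hbelow : ∀ i, i < c → u ≤ g i := by
      intro i hi
      rcases Nat.lt_or_ge p i with h | h
      · by_contra hcon
        push Not at hcon
        exact cmin i hi ⟨h, by omega, hcon⟩
      · exact hlow i h
    have hcC : 2 * y + r < c + z := by
      by_contra hcon
      have := hC c (by omega) (by omega)
      linarith
    -- the part below `c`
    have hA : g p - u ≤ ∑ i ∈ Ico (2 * z' - (z + r)) c, (g i - u) := by
      have hnn : ∀ i ∈ Ico (2 * z' - (z + r)) c, 0 ≤ g i - u := by
        intro i hi
        have := hbelow i (mem_Ico.1 hi).2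
        linarith
      exact single_le_sum hnn (mem_Ico.2 ⟨by omega, c1⟩ : p ∈ Ico (2 * z' - (z + r)) c)
    have hsplit : ∑ i ∈ Icc (2 * z' - (z + r)) (z + r), (g i - u) =
        ∑ i ∈ Ico (2 * z' - (z + r)) c, (g i - u) + ∑ i ∈ Icc c (z + r), (g i - u) := by
      rw [← sum_union]
      · apply sum_congr _ fun _ _ => rfl
        ext i
        simp only [mem_union, mem_Icc, mem_Ico]
        omega
      · rw [disjoint_left]
        intro i hi hi'
        rw [mem_Ico] at hi
        rw [mem_Icc] at hi'
        omega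
    have hnn := hM.nonneg c
    rcases Nat.even_or_odd' (z + r - c) with ⟨k, hk | hk⟩
    · have hL := hLast N g M hM y z z' r hG hv k (by omega)
      have he : z + r - 2 * k = c := by omega
      rw [he] at hL
      have hsp : ∑ i ∈ Icc c (z + r), (g i - u) =
          (g c - u) + ∑ i ∈ Ioc c (z + r), (g i - u) := by
        have h1 : Icc c (z + r) = insert c (Ioc c (z + r)) := by
          ext i
          simp only [mem_insert, mem_Icc, mem_Ioc]
          omega
        rw [h1, sum_insert (by simp)]
      have hcard : ∑ i ∈ Ioc c (z + r), (g i - u) =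
          ∑ i ∈ Ioc c (z + r), g i - 2 * (k : ℝ) * u := by
        rw [sum_sub_distrib, sum_const, Nat.card_Ioc, nsmul_eq_mul, hk]
        push_cast
        ring
      have hk0 : (0 : ℝ) ≤ k := Nat.cast_nonneg k
      have hmul : 2 * (k : ℝ) * u ≤ 2 * (k : ℝ) * M z :=
        mul_le_mul_of_nonneg_left huM (by positivity)
      rw [hsplit, hsp, hcard]
      linarith
    · have hL := hLast N g M hM y z z' r hG hv (k + 1) (by omega)
      have he : Ioc (z + r - 2 * (k + 1)) (z + r) = Icc c (z + r) := by
        ext i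
        simp only [mem_Icc, mem_Ioc]
        omega
      rw [he] at hL
      have hcard : ∑ i ∈ Icc c (z + r), (g i - u) =
          ∑ i ∈ Icc c (z + r), g i - 2 * ((k + 1 : ℕ) : ℝ) * u := by
        rw [sum_sub_distrib, sum_const, Nat.card_Icc, nsmul_eq_mul]
        have : z + r + 1 - c = 2 * (k + 1) := by omega
        rw [this]
        push_cast
        ring
      have hmul : 2 * ((k + 1 : ℕ) : ℝ) * u ≤ 2 * ((k + 1 : ℕ) : ℝ) * M z :=
        mul_le_mul_of_nonneg_left huM (by positivity)
      rw [hsplit, hcard]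
      linarith

end Pool.Agent.TMX.H50
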